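import Pool.Agent.H89.FLT.S

set_option autoImplicit false

open Matrix Polynomial

namespace Pool.FLT.ORBH5

/-- the coefficients of a product of linear factors -/
lemma coeff_prod_le {ι : Type} (s : Finset ι) (d : ι → ℝ) {E : ℝ} (hE : 0 ≤ E) (hd : ∀ i ∈ s, |d i| ≤ E) (k : ℕ) :
    |(∏ i ∈ s, (X - C (d i))).coeff k| ≤ (1 + E) ^ s.card := by
  classical
  induction s using Finset.induction_on generalizing k with
  | empty =>
    simp only [Finset.prod_empty, Finset.card_empty, pow_zero, coeff_one]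
    split_ifs <;> simp
  | insert a s ha ih =>
    have hd' : ∀ i ∈ s, |d i| ≤ E := fun i hi => hd i (Finset.mem_insert_of_mem hi)
    have hda : |d a| ≤ E := hd a (Finset.mem_insert_self _ _)
    rw [Finset.prod_insert ha, Finset.card_insert_of_notMem ha, pow_succ, sub_mul, coeff_sub, coeff_C_mul]
    have h1 : |(X * ∏ i ∈ s, (X - C (d i))).coeff k| ≤ (1 + E) ^ s.card := by
      cases k with
      | zero => rw [mul_coeff_zero, coeff_X_zero, zero_mul, abs_zero]; positivity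
      | succ k => rw [coeff_X_mul]; exact ih hd' k
    have h2 := ih hd' k
    calc |(X * ∏ i ∈ s, (X - C (d i))).coeff k - d a * (∏ i ∈ s, (X - C (d i))).coeff k|
        ≤ |(X * ∏ i ∈ s, (X - C (d i))).coeff k| + |d a * (∏ i ∈ s, (X - C (d i))).coeff k| := abs_sub _ _
      _ ≤ (1 + E) ^ s.card + E * (1 + E) ^ s.card := by
          rw [abs_mul]
          exact add_le_add h1 (mul_le_mul hda h2 (abs_nonneg _) hE)
      _ = (1 + E) ^ s.card * (1 + E) := by ring

lemma charpoly_eq {n : ℕ} {g : GR n} {η : Matrix (Fin n) (Fin n) ℤ} {d : Fin n → ℝ} (h : Dg g η d) :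
    η.charpoly.map (Int.castRingHom ℝ) = ∏ i, (X - C (d i)) := by
  have h1 : η.charpoly.map (Int.castRingHom ℝ) = (cst η).charpoly := by
    rw [← Matrix.charpoly_map]
    rfl
  have hg : (g : Matrix (Fin n) (Fin n) ℝ) * ((g⁻¹ : GR n) : Matrix (Fin n) (Fin n) ℝ) = 1 :=
    congrArg Subtype.val (mul_inv_cancel g)
  have hg' : ((g⁻¹ : GR n) : Matrix (Fin n) (Fin n) ℝ) * (g : Matrix (Fin n) (Fin n) ℝ) = 1 :=
    congrArg Subtype.val (inv_mul_cancel g)
  have h2 : (cst η).charpoly = (Matrix.diagonal d).charpoly := by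
    have e1 : cst η = (cst η * (g : Matrix (Fin n) (Fin n) ℝ)) * ((g⁻¹ : GR n) : Matrix (Fin n) (Fin n) ℝ) := by
      rw [mul_assoc, hg, mul_one]
    rw [e1, Matrix.charpoly_mul_comm, h, ← mul_assoc, hg', one_mul]
  rw [h1, h2, Matrix.charpoly_diagonal]

lemma coeff_le {n : ℕ} {g : GR n} {η : Matrix (Fin n) (Fin n) ℤ} {d : Fin n → ℝ} (h : Dg g η d) {R : ℕ}
    (hR : 1 ≤ R) (hd : ∀ i, |d i| ≤ R) (k : ℕ) : |η.charpoly.coeff k| ≤ ((2 * R) ^ n : ℕ) := by
  have h1 := coeff_prod_le Finset.univ d (E := R) (by positivity) (fun i _ => hd i) k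
  rw [← charpoly_eq h, coeff_map, Finset.card_univ, Fintype.card_fin] at h1
  have hR' : (1:ℝ) ≤ R := by exact_mod_cast hR
  have h2 : |((η.charpoly.coeff k : ℤ) : ℝ)| ≤ (2 * (R:ℝ)) ^ n :=
    h1.trans (pow_le_pow_left₀ (by positivity) (by linarith) n)
  have h3 : ((|η.charpoly.coeff k| : ℤ) : ℝ) ≤ (((2 * R) ^ n : ℕ) : ℝ) := by
    push_cast
    exact h2
  exact_mod_cast h3

lemma det_le (hDTW : DTWStmt) {n : ℕ} {g : GR n} {η : Matrix (Fin n) (Fin n) ℤ} {d : Fin n → ℝ} (h : Dg g η d)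
    {R : ℕ} (hR : 1 ≤ R) (hd : ∀ i, |d i| ≤ R) {v : Fin n → ℤ}
    (hv : ∀ i, |(((g⁻¹ : GR n) : Matrix (Fin n) (Fin n) ℝ).mulVec fun j => (v j : ℝ)) i| ≤ 2) :
    |(Wm η v).det| ≤ (2 ^ n * (2 * R) ^ (n * n) : ℕ) := by
  have hR' : (1:ℝ) ≤ R := by exact_mod_cast hR
  have h1 := hDTW n g η d v h
  have h2 : |(∏ i, (((g⁻¹ : GR n) : Matrix (Fin n) (Fin n) ℝ).mulVec fun j => (v j : ℝ)) i)| ≤ 2 ^ n := by
    rw [Finset.abs_prod]
    calc ∏ i, |(((g⁻¹ : GR n) : Matrix (Fin n) (Fin n) ℝ).mulVec fun j => (v j : ℝ)) i| ≤ ∏ _i : Fin n, (2:ℝ) :=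
          Finset.prod_le_prod (fun _ _ => abs_nonneg _) (fun i _ => hv i)
      _ = 2 ^ n := by simp
  have h3 : |(Matrix.vandermonde d).det| ≤ (2 * (R:ℝ)) ^ (n * n) := by
    rw [Matrix.det_vandermonde, Finset.abs_prod]
    calc ∏ i : Fin n, |∏ j ∈ Finset.Ioi i, (d j - d i)| ≤ ∏ _i : Fin n, (2 * (R:ℝ)) ^ n := by
          apply Finset.prod_le_prod (fun _ _ => abs_nonneg _)
          intro i _
          rw [Finset.abs_prod]
          calc ∏ j ∈ Finset.Ioi i, |d j - d i| ≤ ∏ _j ∈ Finset.Ioi i, (2 * (R:ℝ)) := by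
                apply Finset.prod_le_prod (fun _ _ => abs_nonneg _)
                intro j _
                have := abs_sub (d j) (d i)
                linarith [hd i, hd j]
            _ = (2 * (R:ℝ)) ^ (Finset.Ioi i).card := by rw [Finset.prod_const]
            _ ≤ (2 * (R:ℝ)) ^ n := by
                apply pow_le_pow_right₀ (by linarith)
                calc (Finset.Ioi i).card ≤ (Finset.univ : Finset (Fin n)).card := Finset.card_le_univ _
                  _ = n := by simp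
      _ = (2 * (R:ℝ)) ^ (n * n) := by
          rw [Finset.prod_const, Finset.card_univ, Fintype.card_fin, ← pow_mul]
  have h4 : |(((Wm η v).det : ℤ) : ℝ)| ≤ 2 ^ n * (2 * (R:ℝ)) ^ (n * n) := by
    rw [h1, abs_mul]
    exact mul_le_mul h2 h3 (abs_nonneg _) (by positivity)
  have h5 : ((|(Wm η v).det| : ℤ) : ℝ) ≤ ((2 ^ n * (2 * R) ^ (n * n) : ℕ) : ℝ) := by
    rw [Int.cast_abs]
    refine h4.trans (le_of_eq ?_)
    push_cast
    rfl
  exact_mod_cast h5

/-- the code of a flat -/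
def Code (n : ℕ) (F : Set (GR n)) (t : (Fin (n + 1) → ℤ) × ℤ × (Fin n × Fin n → ℤ)) : Prop :=
  ∃ (g : GR n) (η : Matrix (Fin n) (Fin n) ℤ) (d : Fin n → ℝ) (v : Fin n → ℤ), F = fl ⊤ g ∧ Dg g η d ∧
    Function.Injective d ∧ (Wm η v).det ≠ 0 ∧ (∀ k : Fin (n + 1), t.1 k = η.charpoly.coeff k) ∧
    t.2.1 = (Wm η v).det ∧ ∀ p : Fin n × Fin n, t.2.2 p = (Wm η v) p.1 p.2 % (Wm η v).det

lemma code_inj (hINJ : INJStmt) {n : ℕ} {F F' : Set (GR n)} {t : (Fin (n + 1) → ℤ) × ℤ × (Fin n × Fin n → ℤ)}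
    (h : Code n F t) (h' : Code n F' t) : F = F' := by
  obtain ⟨g, η, d, v, rfl, hD, hdi, hm, h1, h2, h3⟩ := h
  obtain ⟨g', η', d', v', rfl, hD', hdi', hm', h1', h2', h3'⟩ := h'
  have hdet : (Wm η v).det = (Wm η' v').det := h2.symm.trans h2'
  apply hINJ n g g' η η' d d' v v' hD hD' hdi _ hdet hm
  · intro i j
    have e1 := (h3 (i, j)).symm.trans (h3' (i, j))
    rw [← hdet] at e1
    exact Int.ModEq.dvd e1
  · ext k
    by_cases hk : k < n + 1
    · exact (h1 ⟨k, hk⟩).symm.trans (h1' ⟨k, hk⟩)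
    · rw [coeff_eq_zero_of_natDegree_lt, coeff_eq_zero_of_natDegree_lt]
      · rw [Matrix.charpoly_natDegree_eq_dim, Fintype.card_fin]; omega
      · rw [Matrix.charpoly_natDegree_eq_dim, Fintype.card_fin]; omega

/-- the box of the codes -/
noncomputable def box (n B M : ℕ) : Finset ((Fin (n + 1) → ℤ) × ℤ × (Fin n × Fin n → ℤ)) :=
  (Fintype.piFinset fun _ => Finset.Icc (-(B:ℤ)) B) ×ˢ
    (Finset.Icc (-(M:ℤ)) M ×ˢ Fintype.piFinset fun _ => Finset.Icc (0:ℤ) M)

lemma card_box (n B M : ℕ) : (box n B M).card = (2 * B + 1) ^ (n + 1) * ((2 * M + 1) * (M + 1) ^ (n * n)) := by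
  unfold box
  rw [Finset.card_product, Finset.card_product, Fintype.card_piFinset, Fintype.card_piFinset]
  simp only [Finset.prod_const, Finset.card_univ, Fintype.card_fin, Fintype.card_prod, Int.card_Icc]
  congr 2
  · omega
  · congr 1
    omega

theorem orb (hMNK : MNKStmt) (hDTW : DTWStmt) (hCYC : CYCStmt) (hINJ : INJStmt) : ORBStmt := by
  classical
  intro n hn
  set K : ℕ := n * n * ((n + 1) + 1 + n * n) with hK
  refine ⟨24 ^ K, ?_⟩
  intro E hE
  set R : ℕ := ⌈E⌉₊ with hR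
  have hER : E ≤ R := Nat.le_ceil E
  have hR1 : 1 ≤ R := by
    have : (1:ℝ) ≤ R := hE.trans hER
    exact_mod_cast this
  have hRE : (R:ℝ) ≤ 2 * E := by
    have := Nat.ceil_lt_add_one (show 0 ≤ E by linarith)
    rw [hR]
    linarith
  set B : ℕ := (2 * R) ^ n with hB
  set M : ℕ := 2 ^ n * (2 * R) ^ (n * n) with hM
  have key : ∀ F ∈ OS n E, ∃ t ∈ box n B M, Code n F t := by
    rintro F ⟨g, η, d, rfl, hD, hdi, hirr, hd⟩
    obtain ⟨v, hv0, hv⟩ := hMNK n (by omega) g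
    have hm := hCYC n η v hirr hv0
    have hdR : ∀ i, |d i| ≤ R := fun i => (hd i).trans hER
    refine ⟨(fun k => η.charpoly.coeff k, (Wm η v).det, fun p => (Wm η v) p.1 p.2 % (Wm η v).det), ?_,
      g, η, d, v, rfl, hD, hdi, hm, fun _ => rfl, rfl, fun _ => rfl⟩
    have hdet := det_le hDTW hD hR1 hdR hv
    unfold box
    rw [Finset.mem_product, Finset.mem_product, Fintype.mem_piFinset, Fintype.mem_piFinset]
    refine ⟨fun k => ?_, ?_, fun p => ?_⟩
    · have := coeff_le hD hR1 hdR k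
      rw [Finset.mem_Icc]
      exact abs_le.mp this
    · rw [Finset.mem_Icc]
      exact abs_le.mp hdet
    · rw [Finset.mem_Icc]
      refine ⟨Int.emod_nonneg _ hm, ?_⟩
      have h1 := Int.emod_lt_abs ((Wm η v) p.1 p.2) hm
      exact (h1.le).trans hdet
  choose! f hf1 hf2 using key
  have hinj : Set.InjOn f (OS n E) := by
    intro F hF F' hF' h
    have h1 := hf2 F hF
    rw [h] at h1
    exact code_inj hINJ h1 (hf2 F' hF')
  have hmaps : Set.MapsTo f (OS n E) (box n B M : Set _) := fun F hF => hf1 F hF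
  have hfin : (OS n E).Finite := Set.Finite.of_injOn hmaps hinj (Finset.finite_toSet _)
  refine ⟨hfin, ?_⟩
  have hcard : (OS n E).ncard ≤ (box n B M).card := by
    rw [← Set.ncard_coe_finset]
    exact Set.ncard_le_ncard_of_injOn f hmaps hinj (Finset.finite_toSet _)
  rw [card_box] at hcard
  have hE0 : 0 < E := by linarith
  have hBr : (B:ℝ) ≤ (8 * E) ^ (n * n) := by
    rw [hB]; push_cast
    calc (2 * (R:ℝ)) ^ n ≤ (8 * E) ^ n := pow_le_pow_left₀ (by positivity) (by linarith) n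
      _ ≤ (8 * E) ^ (n * n) := pow_le_pow_right₀ (by linarith) (Nat.le_mul_of_pos_left n (by omega))
  have hMr : (M:ℝ) ≤ (8 * E) ^ (n * n) := by
    rw [hM]; push_cast
    calc (2:ℝ) ^ n * (2 * (R:ℝ)) ^ (n * n) ≤ 2 ^ (n * n) * (4 * E) ^ (n * n) := by
          apply mul_le_mul
          · exact pow_le_pow_right₀ (by norm_num) (Nat.le_mul_of_pos_left n (by omega))
          · exact pow_le_pow_left₀ (by positivity) (by linarith) _
          · positivity
          · positivity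
      _ = (8 * E) ^ (n * n) := by rw [← mul_pow]; ring_nf
  have h8 : (1:ℝ) ≤ (8 * E) ^ (n * n) := one_le_pow₀ (by linarith)
  have h24 : 3 * (8 * E) ^ (n * n) ≤ (24 * E) ^ (n * n) := by
    have : (24 * E) ^ (n * n) = 3 ^ (n * n) * (8 * E) ^ (n * n) := by rw [← mul_pow]; ring_nf
    rw [this]
    apply mul_le_mul_of_nonneg_right _ (by positivity)
    calc (3:ℝ) = 3 ^ 1 := by norm_num
      _ ≤ 3 ^ (n * n) := pow_le_pow_right₀ (by norm_num) (Nat.mul_pos (by omega) (by omega))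
  have hX : (1:ℝ) ≤ (24 * E) ^ (n * n) := one_le_pow₀ (by linarith)
  calc ((OS n E).ncard : ℝ) ≤ (((2 * B + 1) ^ (n + 1) * ((2 * M + 1) * (M + 1) ^ (n * n)) : ℕ) : ℝ) := by
        exact_mod_cast hcard
    _ = (2 * (B:ℝ) + 1) ^ (n + 1) * ((2 * (M:ℝ) + 1) * ((M:ℝ) + 1) ^ (n * n)) := by push_cast; ring
    _ ≤ ((24 * E) ^ (n * n)) ^ (n + 1) * (((24 * E) ^ (n * n)) * ((24 * E) ^ (n * n)) ^ (n * n)) := by
        have hM0 : (0:ℝ) ≤ M := by positivity
        have hB0 : (0:ℝ) ≤ B := by positivity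
        apply mul_le_mul
        · exact pow_le_pow_left₀ (by positivity) (by linarith) _
        · apply mul_le_mul
          · linarith
          · exact pow_le_pow_left₀ (by positivity) (by linarith) _
          · positivity
          · positivity
        · positivity
        · positivity
    _ = (24 * E) ^ K := by
        rw [hK]
        rw [← pow_mul, ← pow_mul, ← pow_add, ← pow_add]
        congr 1
        ring
    _ = (24 ^ K : ℝ) * E ^ K := mul_pow _ _ _
    _ ≤ ((24 ^ K : ℕ) : ℝ) * E ^ (24 ^ K) := by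
        push_cast
        apply mul_le_mul_of_nonneg_left _ (by positivity)
        exact pow_le_pow_right₀ hE (Nat.lt_pow_self (by norm_num)).le

end Pool.FLT.ORBH5

namespace Pool.FLT

theorem orb (hMNK : MNKStmt) (hDTW : DTWStmt) (hCYC : CYCStmt) (hINJ : INJStmt) : ORBStmt :=
  ORBH5.orb hMNK hDTW hCYC hINJ

end Pool.FLT
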